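import Pool.Agent.MT100G.Stmts

/-! ODE: existence of a fundamental matrix of a holomorphic linear system on a disc. -/

set_option autoImplicit false

namespace Pool.Agent.MT100G.H67

open Matrix Filter Topology

section Banach

variable {E : Type*} [NormedRing E] [NormedAlgebra ℂ E] [CompleteSpace E]

/-- coefficients of the solution -/
noncomputable def yc (a : ℕ → E) : ℕ → E
  | 0 => 1
  | (k + 1) => ((k + 1 : ℂ)⁻¹) • ∑ i : Fin (k + 1), a i * yc a (k - i)
  decreasing_by omega

omit [CompleteSpace E] in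
theorem yc_succ (a : ℕ → E) (k : ℕ) :
    yc a (k + 1) = ((k + 1 : ℂ)⁻¹) • ∑ i ∈ Finset.range (k + 1), a i * yc a (k - i) := by
  rw [yc, Finset.sum_range]

omit [CompleteSpace E] in
theorem yc_zero (a : ℕ → E) : yc a 0 = 1 := by rw [yc]

omit [CompleteSpace E] in
/-- majorant -/
theorem yc_bound (a : ℕ → E) (r M : ℝ) (hr : 0 < r) (hM : ∀ i, ‖a i‖ * r ^ i ≤ M) (k : ℕ) :
    ‖yc a (k + 1)‖ * r ^ (k + 1) ≤
      M * r / (k + 1) * ∑ j ∈ Finset.range (k + 1), ‖yc a j‖ * r ^ j := by
  have h1 : ‖yc a (k + 1)‖ ≤ ((k : ℝ) + 1)⁻¹ *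
      ∑ i ∈ Finset.range (k + 1), ‖a i‖ * ‖yc a (k - i)‖ := by
    rw [yc_succ, norm_smul, norm_inv]
    have h0 : ‖(k + 1 : ℂ)‖ = (k : ℝ) + 1 := by
      have := Complex.norm_natCast (k + 1)
      push_cast at this
      exact this
    rw [h0]
    apply mul_le_mul_of_nonneg_left _ (by positivity)
    refine (norm_sum_le _ _).trans (Finset.sum_le_sum fun i _ => norm_mul_le _ _)
  have h2 : (∑ i ∈ Finset.range (k + 1), ‖a i‖ * ‖yc a (k - i)‖) * r ^ k ≤
      M * ∑ j ∈ Finset.range (k + 1), ‖yc a j‖ * r ^ j := by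
    have h3 : ∑ j ∈ Finset.range (k + 1), ‖yc a j‖ * r ^ j =
        ∑ i ∈ Finset.range (k + 1), ‖yc a (k - i)‖ * r ^ (k - i) := by
      rw [← Finset.sum_range_reflect (fun j => ‖yc a j‖ * r ^ j) (k + 1)]
      apply Finset.sum_congr rfl
      intro i hi
      have : k + 1 - 1 - i = k - i := by omega
      simp only [this]
    rw [h3, Finset.sum_mul, Finset.mul_sum]
    apply Finset.sum_le_sum
    intro i hi
    have hik : i ≤ k := by
      have := Finset.mem_range.1 hi
      omega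
    have h4 : r ^ k = r ^ i * r ^ (k - i) := by
      rw [← pow_add]
      congr 1
      omega
    rw [h4]
    have h5 : ‖a i‖ * ‖yc a (k - i)‖ * (r ^ i * r ^ (k - i)) =
        (‖a i‖ * r ^ i) * (‖yc a (k - i)‖ * r ^ (k - i)) := by ring
    rw [h5]
    exact mul_le_mul_of_nonneg_right (hM i) (by positivity)
  calc ‖yc a (k + 1)‖ * r ^ (k + 1)
      ≤ (((k : ℝ) + 1)⁻¹ * ∑ i ∈ Finset.range (k + 1), ‖a i‖ * ‖yc a (k - i)‖) * r ^ (k + 1) :=
        mul_le_mul_of_nonneg_right h1 (by positivity)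
    _ = ((k : ℝ) + 1)⁻¹ * r *
        ((∑ i ∈ Finset.range (k + 1), ‖a i‖ * ‖yc a (k - i)‖) * r ^ k) := by ring
    _ ≤ ((k : ℝ) + 1)⁻¹ * r * (M * ∑ j ∈ Finset.range (k + 1), ‖yc a j‖ * r ^ j) :=
        mul_le_mul_of_nonneg_left h2 (by positivity)
    _ = M * r / (k + 1) * ∑ j ∈ Finset.range (k + 1), ‖yc a j‖ * r ^ j := by
        field_simp

omit [CompleteSpace E] in
theorem yc_summable (a : ℕ → E) (r M : ℝ) (hr : 0 < r) (hM : ∀ i, ‖a i‖ * r ^ i ≤ M) (s : ℝ)
    (hs : 0 < s) (hsr : s < r) : Summable fun k : ℕ => ((k : ℝ) + 1) * (‖yc a k‖ * s ^ k) := by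
  have hM0 : 0 ≤ M := le_trans (by positivity) (hM 0)
  set S : ℕ → ℝ := fun k => ∑ j ∈ Finset.range (k + 1), ‖yc a j‖ * r ^ j with hS
  have hS0 : ∀ k, 0 ≤ S k := fun k => Finset.sum_nonneg fun j _ => by positivity
  have hS1 : ∀ k, S (k + 1) ≤ (1 + M * r / (k + 1)) * S k := by
    intro k
    have h1 : S (k + 1) = S k + ‖yc a (k + 1)‖ * r ^ (k + 1) := by
      rw [hS]
      simp only
      rw [Finset.sum_range_succ _ (k + 1)]
    have h2 := yc_bound a r M hr hM k
    rw [h1]
    have h3 : (1 + M * r / (k + 1)) * S k = S k + M * r / (k + 1) * S k := by ring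
    rw [h3]
    linarith
  have hS2 : ∀ k, ‖yc a k‖ * r ^ k ≤ S k := by
    intro k
    rw [hS]
    simp only
    exact Finset.single_le_sum (f := fun j => ‖yc a j‖ * r ^ j) (fun j _ => by positivity)
      (Finset.mem_range.2 (Nat.lt_succ_self k))
  set x : ℝ := s / r with hx
  have hx0 : 0 < x := by positivity
  have hx1 : x < 1 := by
    rw [hx, div_lt_one hr]
    exact hsr
  -- the majorant series
  have hsum : Summable fun k : ℕ => ((k : ℝ) + 1) * (S k * x ^ k) := by
    obtain ⟨t, ht1, ht2⟩ := exists_between hx1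
    have htend : Tendsto (fun k : ℕ => (1 + 1 / ((k : ℝ) + 1)) * (1 + M * r / ((k : ℝ) + 1)) * x)
        atTop (𝓝 x) := by
      have h1 : Tendsto (fun k : ℕ => 1 / ((k : ℝ) + 1)) atTop (𝓝 0) :=
        tendsto_one_div_add_atTop_nhds_zero_nat
      have h2 : Tendsto (fun k : ℕ => M * r / ((k : ℝ) + 1)) atTop (𝓝 0) := by
        have := h1.const_mul (M * r)
        rw [mul_zero] at this
        refine this.congr fun k => ?_
        ring
      have h3 := ((h1.const_add 1).mul (h2.const_add 1)).mul_const x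
      simpa using h3
    have hev := htend.eventually (gt_mem_nhds ht1)
    refine summable_of_ratio_norm_eventually_le ht2 ?_
    filter_upwards [hev] with k hk
    have hk1 : (0 : ℝ) < (k : ℝ) + 1 := by positivity
    rw [Real.norm_of_nonneg (by have := hS0 (k + 1); positivity),
      Real.norm_of_nonneg (by have := hS0 k; positivity)]
    have h4 : ((((k + 1 : ℕ) : ℝ)) + 1) * (S (k + 1) * x ^ (k + 1)) ≤
        ((k : ℝ) + 1 + 1) * (((1 + M * r / (k + 1)) * S k) * x ^ (k + 1)) := by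
      push_cast
      apply mul_le_mul_of_nonneg_left _ (by positivity)
      exact mul_le_mul_of_nonneg_right (hS1 k) (by positivity)
    refine h4.trans ?_
    have h5 : ((k : ℝ) + 1 + 1) * (((1 + M * r / (k + 1)) * S k) * x ^ (k + 1)) =
        ((1 + 1 / ((k : ℝ) + 1)) * (1 + M * r / ((k : ℝ) + 1)) * x) *
          (((k : ℝ) + 1) * (S k * x ^ k)) := by
      field_simp
      ring
    rw [h5]
    exact mul_le_mul_of_nonneg_right hk.le (by have := hS0 k; positivity)
  refine Summable.of_nonneg_of_le (fun k => by positivity) (fun k => ?_) hsum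
  apply mul_le_mul_of_nonneg_left _ (by positivity)
  have h6 : ‖yc a k‖ * s ^ k = (‖yc a k‖ * r ^ k) * x ^ k := by
    rw [hx, div_pow]
    field_simp
  rw [h6]
  exact mul_le_mul_of_nonneg_right (hS2 k) (by positivity)

theorem coeff_bound (A : ℂ → E) (c : ℂ) (ρ : ℝ) (hA : DifferentiableOn ℂ A (Metric.ball c ρ))
    (r : ℝ) (hr : 0 < r) (hrρ : r < ρ) :
    ∃ M : ℝ, ∀ i, ‖((Nat.factorial i : ℂ)⁻¹ • iteratedDeriv i A c)‖ * r ^ i ≤ M := by
  have hz : c + (r : ℂ) ∈ Metric.ball c ρ := by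
    rw [mem_ball_iff_norm]
    simp only [add_sub_cancel_left, Complex.norm_real, Real.norm_eq_abs]
    rwa [abs_of_pos hr]
  have h1 := (Complex.hasSum_taylorSeries_on_ball hA hz).summable.tendsto_atTop_zero.norm
  obtain ⟨M, hM⟩ := h1.bddAbove_range
  refine ⟨M, fun i => ?_⟩
  have h2 := hM (Set.mem_range_self i)
  refine le_trans (le_of_eq ?_) h2
  rw [add_sub_cancel_left, norm_smul, norm_smul, norm_smul, norm_pow, Complex.norm_real,
    Real.norm_of_nonneg hr.le]
  ring

theorem ode_banach (A : ℂ → E) (c : ℂ) (ρ : ℝ)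
    (hA : DifferentiableOn ℂ A (Metric.ball c ρ)) :
    ∃ Y : ℂ → E, Y c = 1 ∧ ∀ w ∈ Metric.ball c ρ, HasDerivAt Y (A w * Y w) w := by
  set a : ℕ → E := fun k => (Nat.factorial k : ℂ)⁻¹ • iteratedDeriv k A c with ha
  refine ⟨fun w => ∑' k : ℕ, (w - c) ^ k • yc a k, ?_, ?_⟩
  · show ∑' k : ℕ, (c - c) ^ k • yc a k = 1
    rw [tsum_eq_single 0]
    · simp [yc_zero]
    · intro k hk
      rw [sub_self, zero_pow hk, zero_smul]
  · intro w hw
    have hw' : ‖w - c‖ < ρ := by rwa [← mem_ball_iff_norm]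
    obtain ⟨s, hs1, hs2⟩ := exists_between hw'
    obtain ⟨r, hr1, hr2⟩ := exists_between hs2
    have hs0 : 0 < s := lt_of_le_of_lt (norm_nonneg _) hs1
    have hr0 : 0 < r := hs0.trans hr1
    obtain ⟨M, hM⟩ := coeff_bound A c ρ hA r hr0 hr2
    have hsum := yc_summable a r M hr0 hM s hs0 hr1
    have hsum1 : Summable fun k : ℕ => ((k : ℝ) + 1) * (‖yc a (k + 1)‖ * s ^ k) := by
      have h1 := ((summable_nat_add_iff 1).2 hsum).mul_left s⁻¹
      refine Summable.of_nonneg_of_le (fun k => by positivity) (fun k => ?_) h1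
      push_cast
      have h2 : s⁻¹ * (((k : ℝ) + 1 + 1) * (‖yc a (k + 1)‖ * s ^ (k + 1))) =
          ((k : ℝ) + 1 + 1) * (‖yc a (k + 1)‖ * s ^ k) := by
        rw [pow_succ]
        field_simp
      rw [h2]
      apply mul_le_mul_of_nonneg_right _ (by positivity)
      linarith
    -- the derivative of the series
    have hder : HasDerivAt (fun z : ℂ => ∑' k : ℕ, (z - c) ^ k • yc a k)
        (∑' k : ℕ, ((k : ℂ) * (w - c) ^ (k - 1)) • yc a k) w := by
      refine hasDerivAt_tsum_of_isPreconnected (t := Metric.ball c s)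
        (g := fun (k : ℕ) (z : ℂ) => (z - c) ^ k • yc a k)
        (g' := fun (k : ℕ) (z : ℂ) => ((k : ℂ) * (z - c) ^ (k - 1)) • yc a k)
        (u := fun k : ℕ => (k : ℝ) * s ^ (k - 1) * ‖yc a k‖) (y₀ := w) (y := w)
        ?_ Metric.isOpen_ball (convex_ball c s).isPreconnected ?_ ?_ ?_ ?_ ?_
      · rw [← summable_nat_add_iff 1]
        refine hsum1.congr fun k => ?_
        rw [Nat.add_sub_cancel]
        push_cast
        ring
      · intro k y _
        have h1 : HasDerivAt (fun z : ℂ => (z - c) ^ k) ((k : ℂ) * (y - c) ^ (k - 1)) y := by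
          have h := ((hasDerivAt_id y).sub_const c).fun_pow k
          rw [mul_one] at h
          exact h
        exact h1.smul_const (yc a k)
      · intro k y hy
        have hy' : ‖y - c‖ ≤ s := by
          rw [mem_ball_iff_norm] at hy
          exact hy.le
        rw [norm_smul, norm_mul, norm_pow, Complex.norm_natCast]
        apply mul_le_mul_of_nonneg_right _ (norm_nonneg _)
        apply mul_le_mul_of_nonneg_left _ (by positivity)
        exact pow_le_pow_left₀ (norm_nonneg _) hy' _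
      · rw [mem_ball_iff_norm]
        exact hs1
      · refine Summable.of_norm_bounded hsum fun k => ?_
        rw [norm_smul, norm_pow]
        have h1 : ‖w - c‖ ^ k ≤ s ^ k := pow_le_pow_left₀ (norm_nonneg _) hs1.le _
        have h2 : ‖w - c‖ ^ k * ‖yc a k‖ ≤ ‖yc a k‖ * s ^ k := by
          rw [mul_comm]
          exact mul_le_mul_of_nonneg_left h1 (norm_nonneg _)
        refine h2.trans ?_
        have h3 : (0 : ℝ) ≤ ‖yc a k‖ * s ^ k := by positivity
        nlinarith [(Nat.cast_nonneg k : (0 : ℝ) ≤ (k : ℝ))]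
      · rw [mem_ball_iff_norm]
        exact hs1
    have hS : ∀ b : ℕ → E, (∃ M' : ℝ, ∀ i, ‖b i‖ * r ^ i ≤ M') →
        Summable fun i : ℕ => ‖(w - c) ^ i • b i‖ := by
      rintro b ⟨M', hM'⟩
      have h1 : Summable fun i : ℕ => M' * (s / r) ^ i :=
        (summable_geometric_of_lt_one (by positivity) ((div_lt_one hr0).2 hr1)).mul_left M'
      refine Summable.of_nonneg_of_le (fun i => norm_nonneg _) (fun i => ?_) h1
      rw [norm_smul, norm_pow]
      have h2 : ‖w - c‖ ^ i ≤ s ^ i := pow_le_pow_left₀ (norm_nonneg _) hs1.le _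
      calc ‖w - c‖ ^ i * ‖b i‖ ≤ s ^ i * ‖b i‖ := mul_le_mul_of_nonneg_right h2 (norm_nonneg _)
        _ = (‖b i‖ * r ^ i) * (s / r) ^ i := by
            rw [div_pow]
            field_simp
        _ ≤ M' * (s / r) ^ i := mul_le_mul_of_nonneg_right (hM' i) (by positivity)
    have hSa : Summable fun i : ℕ => ‖(w - c) ^ i • a i‖ := hS a ⟨M, hM⟩
    have hSy : Summable fun i : ℕ => ‖(w - c) ^ i • yc a i‖ := by
      refine Summable.of_nonneg_of_le (fun k => norm_nonneg _) (fun k => ?_) hsum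
      rw [norm_smul, norm_pow]
      have h1 : ‖w - c‖ ^ k ≤ s ^ k := pow_le_pow_left₀ (norm_nonneg _) hs1.le _
      have h2 : ‖w - c‖ ^ k * ‖yc a k‖ ≤ ‖yc a k‖ * s ^ k := by
        rw [mul_comm]
        exact mul_le_mul_of_nonneg_left h1 (norm_nonneg _)
      refine h2.trans ?_
      have h3 : (0 : ℝ) ≤ ‖yc a k‖ * s ^ k := by positivity
      nlinarith [(Nat.cast_nonneg k : (0 : ℝ) ≤ (k : ℝ))]
    have hAw : A w = ∑' i : ℕ, (w - c) ^ i • a i := by
      rw [← Complex.taylorSeries_eq_on_ball hA hw]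
      apply tsum_congr
      intro i
      rw [ha]
      simp only
      rw [smul_comm]
    have hval : (∑' k : ℕ, ((k : ℂ) * (w - c) ^ (k - 1)) • yc a k) =
        A w * ∑' k : ℕ, (w - c) ^ k • yc a k := by
      rw [hAw, tsum_mul_tsum_eq_tsum_sum_range_of_summable_norm hSa hSy]
      have hs' : Summable fun k : ℕ => ((k : ℂ) * (w - c) ^ (k - 1)) • yc a k := by
        rw [← summable_nat_add_iff 1]
        refine Summable.of_norm_bounded hsum1 fun k => ?_
        rw [norm_smul, norm_mul, norm_pow, Complex.norm_natCast, Nat.add_sub_cancel]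
        have h1 : ‖w - c‖ ^ k ≤ s ^ k := pow_le_pow_left₀ (norm_nonneg _) hs1.le _
        push_cast
        have h2 : ‖w - c‖ ^ k * ‖yc a (k + 1)‖ ≤ ‖yc a (k + 1)‖ * s ^ k := by
          rw [mul_comm]
          exact mul_le_mul_of_nonneg_left h1 (norm_nonneg _)
        rw [mul_assoc]
        exact mul_le_mul_of_nonneg_left h2 (by positivity)
      rw [hs'.tsum_eq_zero_add]
      simp only [Nat.cast_zero, zero_mul, zero_smul, zero_add]
      apply tsum_congr
      intro k
      rw [Nat.add_sub_cancel, yc_succ, smul_smul, Finset.smul_sum]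
      have hk : (k + 1 : ℂ) ≠ 0 := by
        have := Nat.cast_add_one_ne_zero (R := ℂ) k
        exact this
      have h1 : (((k + 1 : ℕ) : ℂ) * (w - c) ^ k) * (k + 1 : ℂ)⁻¹ = (w - c) ^ k := by
        push_cast
        field_simp
      rw [h1]
      apply Finset.sum_congr rfl
      intro i hi
      have hik : i ≤ k := by
        have := Finset.mem_range.1 hi
        omega
      rw [smul_mul_smul_comm, ← pow_add]
      congr 2
      omega
    rw [← hval]
    exact hder

end Banach

section Mat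

variable {d : Type} [Fintype d] [DecidableEq d]

attribute [local instance] Matrix.linftyOpNormedAddCommGroup Matrix.linftyOpNormedSpace
  Matrix.linftyOpNormedRing Matrix.linftyOpNormedAlgebra

/-- existence for matrices, entrywise -/
theorem ode_mat (A : ℂ → Matrix d d ℂ) (c : ℂ) (ρ : ℝ) (hρ : 0 < ρ)
    (hA : ∀ i j, DifferentiableOn ℂ (fun w => A w i j) (Metric.ball c ρ)) :
    ∃ Y : ℂ → Matrix d d ℂ, Y c = 1 ∧ ∀ w ∈ Metric.ball c ρ,
      ∀ i j, HasDerivAt (fun x => Y x i j) ((A w * Y w) i j) w := by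
  have : CompleteSpace (Matrix d d ℂ) := FiniteDimensional.complete ℂ _
  have hA' : DifferentiableOn ℂ A (Metric.ball c ρ) := by
    have h1 : A = fun w => ∑ i, ∑ j, A w i j • Matrix.single i j (1 : ℂ) := by
      funext w
      conv_lhs => rw [Matrix.matrix_eq_sum_single (A w)]
      apply Finset.sum_congr rfl
      intro i _
      apply Finset.sum_congr rfl
      intro j _
      rw [Matrix.smul_single, smul_eq_mul, mul_one]
    rw [h1]
    refine DifferentiableOn.fun_sum fun i _ => DifferentiableOn.fun_sum fun j _ => ?_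
    exact (hA i j).smul_const _
  obtain ⟨Y, hY0, hY⟩ := ode_banach A c ρ hA'
  refine ⟨Y, hY0, fun w hw i j => ?_⟩
  have h1 := hY w hw
  set L : Matrix d d ℂ →L[ℂ] ℂ := LinearMap.toContinuousLinearMap (Matrix.entryLinearMap ℂ ℂ i j)
    with hL
  have h2 := L.hasFDerivAt.comp_hasDerivAt w h1
  exact h2

end Mat

theorem ode : OdeStmt := by
  intro d _ _ A c ρ hρ hA
  obtain ⟨Y, hY0, hY⟩ := ode_mat A c ρ hρ hA
  obtain ⟨Z, hZ0, hZ⟩ := ode_mat (fun w => -(A w)ᵀ) c ρ hρ (fun i j => by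
    simp only [Matrix.neg_apply, Matrix.transpose_apply]
    exact (hA j i).neg)
  refine ⟨Y, hY0, fun w hw => ⟨?_, hY w hw⟩⟩
  -- (Z ^ T) Y is constant
  have hder : ∀ x ∈ Metric.ball c ρ, ∀ i j,
      HasDerivAt (fun x => ((Z x)ᵀ * Y x) i j) 0 x := by
    intro x hx i j
    have h1 : (fun x => ((Z x)ᵀ * Y x) i j) = fun x => ∑ k, Z x k i * Y x k j := by
      funext x
      simp only [Matrix.mul_apply, Matrix.transpose_apply]
    rw [h1]
    have h2 : HasDerivAt (fun x => ∑ k, Z x k i * Y x k j)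
        (∑ k, ((-(A x)ᵀ * Z x) k i * Y x k j + Z x k i * (A x * Y x) k j)) x :=
      HasDerivAt.fun_sum fun k _ => (hZ x hx k i).mul (hY x hx k j)
    have h3 : (∑ k, ((-(A x)ᵀ * Z x) k i * Y x k j + Z x k i * (A x * Y x) k j)) = 0 := by
      have h4 : (∑ k, ((-(A x)ᵀ * Z x) k i * Y x k j + Z x k i * (A x * Y x) k j)) =
          ((-(A x)ᵀ * Z x)ᵀ * Y x + (Z x)ᵀ * (A x * Y x)) i j := by
        rw [Matrix.add_apply, Matrix.mul_apply, Matrix.mul_apply, ← Finset.sum_add_distrib]
        simp only [Matrix.transpose_apply]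
      rw [h4]
      have h5 : (-(A x)ᵀ * Z x)ᵀ * Y x + (Z x)ᵀ * (A x * Y x) = 0 := by
        rw [Matrix.transpose_mul, Matrix.transpose_neg, Matrix.transpose_transpose,
          Matrix.mul_assoc, Matrix.neg_mul, Matrix.mul_neg, neg_add_cancel]
      rw [h5]
      rfl
    rw [← h3]
    exact h2
  have hconst : ∀ i j, ((Z w)ᵀ * Y w) i j = ((Z c)ᵀ * Y c) i j := by
    intro i j
    have hc : c ∈ Metric.ball c ρ := Metric.mem_ball_self hρ
    refine IsOpen.is_const_of_deriv_eq_zero (𝕜 := ℂ) (f := fun x => ((Z x)ᵀ * Y x) i j)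
      Metric.isOpen_ball (convex_ball c ρ).isPreconnected ?_ ?_ hw hc
    · intro x hx
      exact (hder x hx i j).differentiableAt.differentiableWithinAt
    · intro x hx
      exact (hder x hx i j).deriv
  have h1 : (Z w)ᵀ * Y w = 1 := by
    ext i j
    rw [hconst i j, hZ0, hY0, Matrix.transpose_one, Matrix.mul_one]
  have h2 : (Z w)ᵀ.det * (Y w).det = 1 := by
    rw [← Matrix.det_mul, h1, Matrix.det_one]
  exact IsUnit.of_mul_eq_one_right _ h2

end Pool.Agent.MT100G.H67
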